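import Pool.Agent.H64.TL.Main
import Pool.Agent.H91.Fatou.Mob

/-!
# THEOREM T on the sphere

`sph_inj`: `C ≠ univ` closed and connected, `f` continuous, injective near each point of `C`, `f C ⊆ C'`, `C'` closed, without
interior and with connected complement. Then `f` is injective on a neighbourhood of `C`.
-/

set_option autoImplicit false

open Filter Topology Metric Set

namespace Pool.Agent.H64.TL

open Pool.Agent.H56.TH (Full)
open Pool.Agent.H91.Fatou (ch ch_open exists_chart_infty)

/-- a chart which misses a given point only -/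
theorem chart_ex (p : OnePoint ℂ) : ∃ e : ℂ → OnePoint ℂ, IsOpenEmbedding e ∧ range e = {p}ᶜ := by
  obtain ⟨α, β, γ, δ, hd, hr⟩ := exists_chart_infty p
  exact ⟨ch α β γ δ, ch_open hd, hr⟩

/-- sets with connected complement are full in a chart -/
theorem full_chart {e : ℂ → OnePoint ℂ} (he : IsOpenEmbedding e) {p : OnePoint ℂ} (hr : range e = {p}ᶜ)
    {C' : Set (OnePoint ℂ)} (hp : IsPreconnected C'ᶜ) (hpC : p ∉ C') : Full (e ⁻¹' C') := by
  intro O hO hb hfr o ho
  by_contra hoC
  have hOc : IsCompact (closure O) := Metric.isCompact_of_isClosed_isBounded isClosed_closure hb.closure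
  have h1 : IsOpen (e '' O) := he.isOpenMap O hO
  have h2 : IsClosed (e '' closure O) := (hOc.image he.continuous).isClosed
  have hsub : C'ᶜ ⊆ e '' O ∪ (e '' closure O)ᶜ := by
    intro x hx
    by_cases hx2 : x ∈ e '' closure O
    · obtain ⟨y, hy, rfl⟩ := hx2
      left
      by_cases hyO : y ∈ O
      · exact ⟨y, hyO, rfl⟩
      · exfalso
        apply hx
        exact hfr (by rw [hO.frontier_eq]; exact ⟨hy, hyO⟩)
    · exact Or.inr hx2
  have h3 := hp.subset_left_of_subset_union h1 h2.isOpen_compl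
    (disjoint_left.2 fun x h4 h5 => h5 (image_mono subset_closure h4)) hsub ⟨e o, hoC, ⟨o, ho, rfl⟩⟩
  obtain ⟨y, -, hy⟩ := h3 hpC
  have h4 : e y ∈ ({p}ᶜ : Set (OnePoint ℂ)) := hr ▸ mem_range_self y
  exact h4 hy

/-- THEOREM T on the sphere -/
theorem sph_inj {f : OnePoint ℂ → OnePoint ℂ} (hf : Continuous f) {C C' : Set (OnePoint ℂ)} (hC : IsClosed C)
    (hCp : IsPreconnected C) (hCi : C ≠ univ) (hloc : ∀ x ∈ C, ∃ U ∈ 𝓝 x, InjOn f U) (hCC' : MapsTo f C C')
    (hC' : IsClosed C') (hp : IsPreconnected C'ᶜ) (hi : interior C' = ∅) : ∃ V ∈ 𝓝ˢ C, InjOn f V := by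
  refine Set.InjOn.exists_mem_nhdsSet ?_ hC.isCompact (fun x _ => hf.continuousAt) hloc
  have hC'i : C' ≠ univ := by
    rintro rfl
    rw [interior_univ] at hi
    exact absurd hi (Set.nonempty_iff_ne_empty.1 univ_nonempty)
  obtain ⟨p, hpC⟩ := (ne_univ_iff_exists_notMem C).1 hCi
  obtain ⟨p', hpC'⟩ := (ne_univ_iff_exists_notMem C').1 hC'i
  obtain ⟨e, he, her⟩ := chart_ex p
  obtain ⟨e', he', her'⟩ := chart_ex p'
  have hCe : C ⊆ range e := by
    rw [her]
    rintro x hx rfl
    exact hpC hx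
  have hCe' : C' ⊆ range e' := by
    rw [her']
    rintro x hx rfl
    exact hpC' hx
  obtain ⟨X, hX⟩ : ∃ X : Set ℂ, X = e ⁻¹' C := ⟨_, rfl⟩
  have hXc : IsCompact X := hX ▸ (he.isInducing.isCompact_preimage_iff hCe).2 hC.isCompact
  have hXp : IsPreconnected X := hX ▸ (hCp.preimage_of_isOpenMap he.injective he.isOpenMap hCe)
  have hXm : ∀ x ∈ X, e x ∈ C := fun x hx => by rw [hX] at hx; exact hx
  have hex : ∀ x : X, ∃ y : ℂ, e' y = f (e x) := fun x => hCe' (hCC' (hXm x x.2))
  choose g hg using hex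
  have hgc : Continuous g := by
    rw [he'.isInducing.continuous_iff]
    have : e' ∘ g = fun x : X => f (e x) := funext fun x => hg x
    rw [this]
    exact hf.comp (he.continuous.comp continuous_subtype_val)
  have : CompactSpace X := isCompact_iff_compactSpace.1 hXc
  have : PreconnectedSpace X := Subtype.preconnectedSpace hXp
  have hrange : range g ⊆ e' ⁻¹' C' := by
    rintro _ ⟨x, rfl⟩
    show e' (g x) ∈ C'
    rw [hg]
    exact hCC' (hXm x x.2)
  have hint : interior (e' ⁻¹' C') = ∅ := by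
    have h1 := he'.isOpenMap.preimage_interior_eq_interior_preimage he'.continuous C'
    rw [← h1, hi, preimage_empty]
  have hfull := full_chart he' her' hp hpC'
  have key := tree_inj (f := g) hgc (fun x => by
    obtain ⟨U, hU, hUi⟩ := hloc (e x) (hXm x x.2)
    refine ⟨(fun x : X => e x) ⁻¹' U, (he.continuous.comp continuous_subtype_val).continuousAt hU, ?_⟩
    intro y hy z hz hyz
    have h1 : f (e y) = f (e z) := by rw [← hg y, ← hg z, hyz]
    exact Subtype.ext (he.injective (hUi hy hz h1))) (fun O hO hb hfr => by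
      have h1 := hfull O hO hb (hfr.trans hrange)
      have h2 : O ⊆ interior (e' ⁻¹' C') := interior_maximal h1 hO
      rw [hint] at h2
      exact h2.trans (empty_subset _)) (by
      have h1 := interior_mono hrange
      rw [hint] at h1
      exact subset_empty_iff.1 h1)
  intro x hx y hy hxy
  obtain ⟨x', rfl⟩ := hCe hx
  obtain ⟨y', rfl⟩ := hCe hy
  have hx' : x' ∈ X := by rw [hX]; exact hx
  have hy' : y' ∈ X := by rw [hX]; exact hy
  have h1 : g ⟨x', hx'⟩ = g ⟨y', hy'⟩ := he'.injective (by rw [hg, hg]; exact hxy)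
  have h2 := key h1
  rw [Subtype.mk.injEq] at h2
  rw [h2]

end Pool.Agent.H64.TL
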