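import Pool.Agent.H64.TL.Code

/-!
# Codes: bridges and the local property
-/

set_option autoImplicit false

open Filter Topology Metric Set

namespace Pool.Agent.H64.TL

/-- the frame: a bounded open set with logarithms, and finitely many lines which do not meet inside it -/
structure GR {ι : Type} (F : Set ℂ) (o u : ι → ℂ) (lg : ℂ → ℂ → ℂ) : Prop where
  Fo : IsOpen F
  Fb : Bornology.IsBounded F
  u0 : ∀ k, u k ≠ 0
  vx : ∀ k l w, k ≠ l → w ∈ F → (co (o k) (u k) w).im = 0 → (co (o l) (u l) w).im ≠ 0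
  lg : LG F lg

/-- maximal segments -/
def Sg {ι : Type} (F : Set ℂ) (o u : ι → ℂ) (s : ι × ℝ × ℝ) : Prop :=
  s.2.1 < s.2.2 ∧ o s.1 + s.2.1 * u s.1 ∉ F ∧ o s.1 + s.2.2 * u s.1 ∉ F ∧
    ∀ t : ℝ, s.2.1 < t → t < s.2.2 → o s.1 + t * u s.1 ∈ F

/-- the points of a segment -/
def seg {ι : Type} (o u : ι → ℂ) (s : ι × ℝ × ℝ) : Set ℂ := (fun t : ℝ => o s.1 + t * u s.1) '' Ioo s.2.1 s.2.2

open Classical in
/-- the code of a point -/
noncomputable def cd {ι : Type} (F : Set ℂ) (o u : ι → ℂ) (lg : ℂ → ℂ → ℂ) (w : ℂ) :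
    (ι → Prop) × (ι × ℝ × ℝ → ℂ) :=
  (fun k => (co (o k) (u k) w).im ≤ 0,
    fun s => if Sg F o u s then ell lg (o s.1 + s.2.1 * u s.1) (o s.1 + s.2.2 * u s.1) w else 0)

open Classical in
/-- the code on the other side of the segment `s` -/
noncomputable def flip {ι : Type} (s : ι × ℝ × ℝ) (v : (ι → Prop) × (ι × ℝ × ℝ → ℂ)) :
    (ι → Prop) × (ι × ℝ × ℝ → ℂ) :=
  (Function.update v.1 s.1 False, Function.update v.2 s (v.2 s + 1))

/-- the edges -/
def EE {ι : Type} (F : Set ℂ) (o u : ι → ℂ) (lg : ℂ → ℂ → ℂ) (v v' : (ι → Prop) × (ι × ℝ × ℝ → ℂ)) : Prop :=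
  ∃ s, Sg F o u s ∧ ∃ w ∈ seg o u s, v = cd F o u lg w ∧ v' = flip s v

variable {ι : Type} {F : Set ℂ} {o u : ι → ℂ} {lg : ℂ → ℂ → ℂ}

theorem cd_fst (w : ℂ) (k : ι) : (cd F o u lg w).1 k = ((co (o k) (u k) w).im ≤ 0) := rfl

theorem cd_snd {s : ι × ℝ × ℝ} (hs : Sg F o u s) (w : ℂ) :
    (cd F o u lg w).2 s = ell lg (o s.1 + s.2.1 * u s.1) (o s.1 + s.2.2 * u s.1) w := by
  classical
  exact if_pos hs

theorem cd_snd' {s : ι × ℝ × ℝ} (hs : ¬ Sg F o u s) (w : ℂ) : (cd F o u lg w).2 s = 0 := by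
  classical
  exact if_neg hs

theorem flip_fst (s : ι × ℝ × ℝ) (v : (ι → Prop) × (ι × ℝ × ℝ → ℂ)) : (flip s v).1 s.1 = False := by
  unfold flip
  simp

theorem flip_fst' (s : ι × ℝ × ℝ) (v : (ι → Prop) × (ι × ℝ × ℝ → ℂ)) {k : ι} (hk : k ≠ s.1) :
    (flip s v).1 k = v.1 k := by
  unfold flip
  simp [hk]

theorem flip_snd (s : ι × ℝ × ℝ) (v : (ι → Prop) × (ι × ℝ × ℝ → ℂ)) : (flip s v).2 s = v.2 s + 1 := by
  unfold flip
  simp

theorem flip_snd' (s : ι × ℝ × ℝ) (v : (ι → Prop) × (ι × ℝ × ℝ → ℂ)) {s' : ι × ℝ × ℝ} (hk : s' ≠ s) :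
    (flip s v).2 s' = v.2 s' := by
  unfold flip
  simp [hk]

/-- two maximal segments which meet are equal -/
theorem seg_disj (h : GR F o u lg) {s s' : ι × ℝ × ℝ} (hs : Sg F o u s) (hs' : Sg F o u s') {w : ℂ}
    (hw : w ∈ seg o u s) (hw' : w ∈ seg o u s') : s = s' := by
  obtain ⟨k, α, β⟩ := s
  obtain ⟨l, α', β'⟩ := s'
  obtain ⟨h1, h2, h3, h4⟩ := hs
  obtain ⟨h1', h2', h3', h4'⟩ := hs'
  obtain ⟨t, ⟨ht1, ht2⟩, rfl⟩ := hw
  obtain ⟨t', ⟨ht1', ht2'⟩, he⟩ := hw'
  simp only at h1 h2 h3 h4 h1' h2' h3' h4' ht1 ht2 ht1' ht2' he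
  have hwF := h4 t ht1 ht2
  by_cases hkl : k = l
  · subst hkl
    have htt : t' = t := by
      have h5 := h.u0 k
      have h6 : (t' : ℂ) * u k = t * u k := add_left_cancel he
      exact_mod_cast mul_right_cancel₀ h5 h6
    subst htt
    have hα : α = α' := by
      rcases lt_trichotomy α α' with h7 | h7 | h7
      · exact absurd (h4 α' h7 (by linarith)) h2'
      · exact h7
      · exact absurd (h4' α h7 (by linarith)) h2
    have hβ : β = β' := by
      rcases lt_trichotomy β β' with h7 | h7 | h7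
      · exact absurd (h4' β (by linarith) h7) h3
      · exact h7
      · exact absurd (h4 β' (by linarith) h7) h3'
    rw [hα, hβ]
  · exfalso
    have e1 : (co (o k) (u k) (o k + t * u k)).im = 0 := by rw [co_add (h.u0 k), Complex.ofReal_im]
    have e2 : (co (o l) (u l) (o k + t * u k)).im = 0 := by rw [← he, co_add (h.u0 l), Complex.ofReal_im]
    exact h.vx k l _ hkl hwF e1 e2

/-- the side of a line is constant on connected sets which do not meet it -/
theorem side_const {o u : ℂ} {S : Set ℂ} (hS : IsPreconnected S)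
    (h0 : ∀ w ∈ S, (co o u w).im ≠ 0) {w w' : ℂ} (hw : w ∈ S) (hw' : w' ∈ S) :
    ((co o u w).im ≤ 0) = ((co o u w').im ≤ 0) := by
  have hc : ContinuousOn (fun w => (co o u w).im) S := by
    have : Continuous fun w => (co o u w).im := by
      unfold co
      exact Complex.continuous_im.comp ((continuous_id.sub continuous_const).div_const u)
    exact this.continuousOn
  have key : ∀ w ∈ S, ∀ w' ∈ S, (co o u w).im ≤ 0 → (co o u w').im ≤ 0 := by
    intro w hw w' hw' h1
    by_contra h2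
    push Not at h2
    obtain ⟨x, hx, hx0⟩ := hS.intermediate_value hw hw' hc ⟨h1, h2.le⟩
    exact h0 x hx hx0
  exact propext ⟨key w hw w' hw', key w' hw' w hw⟩

/-- `ell` is constant on connected sets which do not meet the segment -/
theorem seg_off (h : GR F o u lg) {s : ι × ℝ × ℝ} (hs : Sg F o u s) {S : Set ℂ} (hS : IsPreconnected S) (hSF : S ⊆ F)
    (hd : ∀ w ∈ S, w ∉ seg o u s) {w w' : ℂ} (hw : w ∈ S) (hw' : w' ∈ S) :
    ell lg (o s.1 + s.2.1 * u s.1) (o s.1 + s.2.2 * u s.1) w =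
      ell lg (o s.1 + s.2.1 * u s.1) (o s.1 + s.2.2 * u s.1) w' := by
  have hu := h.u0 s.1
  refine ell_off h.lg hs.2.1 hs.2.2.1 hS hSF (fun x hx => ?_) hw hw'
  rw [co_z hu]
  have hxe : ∀ t : ℝ, co (o s.1) (u s.1) x = t → x = o s.1 + t * u s.1 := by
    intro t ht
    unfold co at ht
    rw [div_eq_iff hu] at ht
    linear_combination ht
  refine co_slit hs.1 (fun h1 => ?_) (fun h1 => ?_) fun t ht1 ht2 h1 => ?_
  · exact hs.2.1 ((hxe _ h1) ▸ hSF hx)
  · exact hs.2.2.1 ((hxe _ h1) ▸ hSF hx)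
  · exact hd x hx ⟨t, ⟨ht1, ht2⟩, (hxe _ h1).symm⟩

theorem seg_sub {s : ι × ℝ × ℝ} (hs : Sg F o u s) : seg o u s ⊆ F := by
  rintro _ ⟨t, ⟨h1, h2⟩, rfl⟩
  exact hs.2.2.2 t h1 h2

theorem seg_pre (s : ι × ℝ × ℝ) : IsPreconnected (seg o u s) :=
  isPreconnected_Ioo.image _ (by fun_prop)

theorem seg_co (h : GR F o u lg) {s : ι × ℝ × ℝ} {w : ℂ} (hw : w ∈ seg o u s) :
    ∃ t : ℝ, s.2.1 < t ∧ t < s.2.2 ∧ co (o s.1) (u s.1) w = t ∧ w = o s.1 + t * u s.1 := by
  obtain ⟨t, ⟨h1, h2⟩, rfl⟩ := hw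
  exact ⟨t, h1, h2, co_add (h.u0 _) t, rfl⟩

/-- the code is constant on a segment -/
theorem cd_seg (h : GR F o u lg) {s : ι × ℝ × ℝ} (hs : Sg F o u s) {w w' : ℂ} (hw : w ∈ seg o u s)
    (hw' : w' ∈ seg o u s) : cd F o u lg w = cd F o u lg w' := by
  have hu := h.u0 s.1
  refine Prod.ext ?_ ?_
  · funext k
    rw [cd_fst, cd_fst]
    by_cases hk : k = s.1
    · subst hk
      obtain ⟨t, -, -, h1, -⟩ := seg_co h hw
      obtain ⟨t', -, -, h1', -⟩ := seg_co h hw'
      rw [h1, h1', Complex.ofReal_im, Complex.ofReal_im]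
    · refine side_const (seg_pre s) (fun x hx h0 => ?_) hw hw'
      obtain ⟨t, -, -, h1, -⟩ := seg_co h hx
      exact h.vx k s.1 x hk (seg_sub hs hx) h0 (by rw [h1, Complex.ofReal_im])
  · funext s'
    by_cases hs' : Sg F o u s'
    · rw [cd_snd hs', cd_snd hs']
      by_cases he : s' = s
      · subst he
        obtain ⟨c, hc⟩ := ell_half h.lg hs'.2.1 hs'.2.2.1 (seg_pre s') (seg_sub hs') (fun x hx => by
          obtain ⟨t, ht1, ht2, h1, -⟩ := seg_co h hx
          rw [co_z hu, h1, ← Complex.ofReal_sub, ← Complex.ofReal_sub, ← Complex.ofReal_div, Complex.ofReal_re]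
          exact div_neg_of_pos_of_neg (by linarith) (by linarith))
        have him : ∀ x ∈ seg o u s', 0 ≤ ((x - (o s'.1 + s'.2.1 * u s'.1)) / (x - (o s'.1 + s'.2.2 * u s'.1))).im := by
          intro x hx
          obtain ⟨t, ht1, ht2, h1, -⟩ := seg_co h hx
          rw [co_z hu, h1, ← Complex.ofReal_sub, ← Complex.ofReal_sub, ← Complex.ofReal_div, Complex.ofReal_im]
        rw [(hc w hw).1 (him w hw), (hc w' hw').1 (him w' hw')]
      · exact seg_off h hs' (seg_pre s) (seg_sub hs) (fun x hx hx' => he (seg_disj h hs' hs hx' hx)) hw hw'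
    · rw [cd_snd' hs', cd_snd' hs']

/-- every edge is a bridge -/
theorem cd_br (h : GR F o u lg) : Br (EE F o u lg) := by
  rintro v v' ⟨s, hs, w, hw, hv, hv'⟩
  refine ⟨fun x => x.2 s = v.2 s, rfl, ?_, ?_⟩
  · intro h1
    rw [hv', flip_snd] at h1
    exact one_ne_zero (add_eq_left.1 h1)
  · rintro x x' ⟨s', hs', w', hw', hx, hx'⟩
    by_cases he : s' = s
    · subst he
      left
      have h1 : x = v := by rw [hx, hv]; exact cd_seg h hs' hw' hw
      exact ⟨h1, by rw [hx', hv', h1]⟩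
    · right
      have h1 : x'.2 s = x.2 s := by
        rw [hx', flip_snd' s' x (fun h => he h.symm)]
      show x.2 s = v.2 s ↔ x'.2 s = v.2 s
      rw [h1]

/-- the maximal segment through a point of a line -/
theorem seg_ex (h : GR F o u lg) {k : ι} {t0 : ℝ} (ht : o k + t0 * u k ∈ F) :
    ∃ α β : ℝ, Sg F o u (k, α, β) ∧ α < t0 ∧ t0 < β := by
  obtain ⟨g, hg⟩ : ∃ g : ℝ → ℂ, g = fun t : ℝ => o k + t * u k := ⟨_, rfl⟩
  have hgc : Continuous g := by rw [hg]; fun_prop
  have hgo : IsOpen (g ⁻¹' F) := h.Fo.preimage hgc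
  have hgb : ∃ M : ℝ, ∀ t, g t ∈ F → |t| ≤ M := by
    obtain ⟨R, hR⟩ := h.Fb.subset_closedBall (0 : ℂ)
    refine ⟨(R + ‖o k‖) / ‖u k‖, fun t htF => ?_⟩
    have h1 := hR htF
    rw [mem_closedBall_zero_iff, hg] at h1
    have h2 : ‖(t : ℂ) * u k‖ ≤ R + ‖o k‖ := by
      calc ‖(t : ℂ) * u k‖ = ‖(o k + t * u k) - o k‖ := by rw [add_sub_cancel_left]
        _ ≤ ‖o k + t * u k‖ + ‖o k‖ := norm_sub_le _ _
        _ ≤ R + ‖o k‖ := by linarith
    rw [norm_mul, Complex.norm_real, Real.norm_eq_abs] at h2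
    rw [le_div_iff₀ (norm_pos_iff.2 (h.u0 k))]
    exact h2
  obtain ⟨M, hM⟩ := hgb
  have ht' : t0 ∈ g ⁻¹' F := by rw [hg]; exact ht
  -- the component
  obtain ⟨C, hC⟩ : ∃ C, C = connectedComponentIn (g ⁻¹' F) t0 := ⟨_, rfl⟩
  have hCo : IsOpen C := hC ▸ hgo.connectedComponentIn
  have hCp : IsPreconnected C := hC ▸ isPreconnected_connectedComponentIn
  have hCt : t0 ∈ C := hC ▸ mem_connectedComponentIn ht'
  have hCs : C ⊆ g ⁻¹' F := hC ▸ connectedComponentIn_subset _ _
  have hCb : BddBelow C := ⟨-M, fun t ht => (abs_le.1 (hM t (hCs ht))).1⟩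
  have hCa : BddAbove C := ⟨M, fun t ht => (abs_le.1 (hM t (hCs ht))).2⟩
  have hCn : C.Nonempty := ⟨t0, hCt⟩
  have hI : C = Ioo (sInf C) (sSup C) := by
    apply Subset.antisymm
    · intro t ht
      obtain ⟨r, hr, hb⟩ := Metric.isOpen_iff.1 hCo t ht
      have h1 : t - r / 2 ∈ C := hb (by rw [mem_ball, Real.dist_eq]; rw [abs_lt]; constructor <;> linarith)
      have h2 : t + r / 2 ∈ C := hb (by rw [mem_ball, Real.dist_eq]; rw [abs_lt]; constructor <;> linarith)
      have h3 := csInf_le hCb h1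
      have h4 := le_csSup hCa h2
      constructor <;> linarith
    · exact IsConnected.Ioo_csInf_csSup_subset ⟨hCn, hCp⟩ hCb hCa
  obtain ⟨α, hα⟩ : ∃ α, α = sInf C := ⟨_, rfl⟩
  obtain ⟨β, hβ⟩ : ∃ β, β = sSup C := ⟨_, rfl⟩
  rw [← hα, ← hβ] at hI
  have hαβ : α < t0 ∧ t0 < β := by rw [hI] at hCt; exact hCt
  have hout : ∀ e : ℝ, (e = α ∨ e = β) → g e ∉ F := by
    intro e he hF
    -- the component would contain `e`
    have h1 : IsPreconnected (Ioo α β ∪ {e}) := by
      have h2 : Ioo α β ∪ {e} ⊆ closure (Ioo α β) := by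
        rw [closure_Ioo (by linarith [hαβ.1, hαβ.2] : α ≠ β)]
        rintro x (hx | hx)
        · exact ⟨hx.1.le, hx.2.le⟩
        · rw [mem_singleton_iff.1 hx]
          rcases he with h3 | h3
          · rw [h3]; exact ⟨le_rfl, by linarith [hαβ.1, hαβ.2]⟩
          · rw [h3]; exact ⟨by linarith [hαβ.1, hαβ.2], le_rfl⟩
      exact isPreconnected_Ioo.subset_closure subset_union_left h2
    have h2 : Ioo α β ∪ {e} ⊆ C := by
      rw [hC]
      refine h1.subset_connectedComponentIn (Or.inl hαβ) ?_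
      rintro x (hx | hx)
      · exact hCs (hI ▸ hx)
      · rw [mem_singleton_iff.1 hx]
        exact hF
    have h3 : e ∈ Ioo α β := hI ▸ h2 (Or.inr rfl)
    rcases he with h4 | h4
    · rw [h4] at h3; exact lt_irrefl _ h3.1
    · rw [h4] at h3; exact lt_irrefl _ h3.2
  refine ⟨α, β, ⟨?_, ?_, ?_, ?_⟩, hαβ.1, hαβ.2⟩
  · show α < β
    linarith [hαβ.1, hαβ.2]
  · have := hout α (Or.inl rfl)
    rw [hg] at this
    exact this
  · have := hout β (Or.inr rfl)
    rw [hg] at this
    exact this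
  · intro t h1 h2
    have h3 : t ∈ C := by rw [hI]; exact ⟨h1, h2⟩
    have h4 := hCs h3
    rw [hg] at h4
    exact h4

/-- nearby points have equal or adjacent codes -/
theorem cd_loc [Finite ι] (h : GR F o u lg) {y : ℂ} (hy : y ∈ F) : ∃ r : ℝ, 0 < r ∧ ∀ w ∈ ball y r, ∀ w' ∈ ball y r,
    cd F o u lg w = cd F o u lg w' ∨ EE F o u lg (cd F o u lg w) (cd F o u lg w') ∨
      EE F o u lg (cd F o u lg w') (cd F o u lg w) := by
  have hcc : ∀ k, Continuous fun w => co (o k) (u k) w := fun k => by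
    unfold co
    fun_prop
  have hci : ∀ k, Continuous fun w => (co (o k) (u k) w).im := fun k => Complex.continuous_im.comp (hcc k)
  have hcr : ∀ k, Continuous fun w => (co (o k) (u k) w).re := fun k => Complex.continuous_re.comp (hcc k)
  have h1 : ∀ᶠ w in 𝓝 y, w ∈ F ∧ ∀ l, (co (o l) (u l) y).im ≠ 0 → (co (o l) (u l) w).im ≠ 0 := by
    refine (h.Fo.eventually_mem hy).and (eventually_all.2 fun l => ?_)
    by_cases hl : (co (o l) (u l) y).im = 0
    · exact Eventually.of_forall fun w hw => absurd hl hw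
    · filter_upwards [(hci l).continuousAt.eventually_ne hl] with w hw _
      exact hw
  by_cases hex : ∃ k, (co (o k) (u k) y).im = 0
  · obtain ⟨k, hk⟩ := hex
    have hu := h.u0 k
    have hyk : y = o k + ((co (o k) (u k) y).re : ℝ) * u k := by
      have h2 : ((co (o k) (u k) y).re : ℂ) = co (o k) (u k) y := Complex.ext (by simp) (by simp [hk])
      rw [h2]
      unfold co
      field_simp
      ring
    obtain ⟨t0, ht0⟩ : ∃ t0, t0 = (co (o k) (u k) y).re := ⟨_, rfl⟩
    rw [← ht0] at hyk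
    obtain ⟨α, β, hs, hα, hβ⟩ := seg_ex h (k := k) (t0 := t0) (by rw [← hyk]; exact hy)
    obtain ⟨s, hsd⟩ : ∃ s : ι × ℝ × ℝ, s = (k, α, β) := ⟨_, rfl⟩
    have hysg : y ∈ seg o u s := by
      rw [hsd]
      exact ⟨t0, ⟨hα, hβ⟩, hyk.symm⟩
    have hs' : Sg F o u s := hsd ▸ hs
    have h2 : ∀ᶠ w in 𝓝 y, α < (co (o k) (u k) w).re ∧ (co (o k) (u k) w).re < β := by
      have e1 := (hcr k).continuousAt.eventually (lt_mem_nhds (show α < (co (o k) (u k) y).re by rw [← ht0]; exact hα))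
      have e2 := (hcr k).continuousAt.eventually (gt_mem_nhds (show (co (o k) (u k) y).re < β by rw [← ht0]; exact hβ))
      exact e1.and e2
    have hqF : o k + β * u k ∉ F := hs.2.2.1
    have hpF : o k + α * u k ∉ F := hs.2.1
    have h3 : ∀ᶠ w in 𝓝 y, ((w - (o k + α * u k)) / (w - (o k + β * u k))).re < 0 := by
      have hyq : y - (o k + β * u k) ≠ 0 := sub_ne_zero.2 fun h => hqF (h ▸ hy)
      have e1 : ContinuousAt (fun w => ((w - (o k + α * u k)) / (w - (o k + β * u k))).re) y := by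
        refine Complex.continuous_re.continuousAt.comp ?_
        exact (continuousAt_id.sub continuousAt_const).div (continuousAt_id.sub continuousAt_const) hyq
      refine e1.eventually (gt_mem_nhds ?_)
      show ((y - (o k + α * u k)) / (y - (o k + β * u k))).re < 0
      rw [co_z hu]
      have e2 : co (o k) (u k) y = (t0 : ℂ) := by
        rw [hyk]
        exact co_add hu t0
      rw [e2, ← Complex.ofReal_sub, ← Complex.ofReal_sub, ← Complex.ofReal_div, Complex.ofReal_re]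
      exact div_neg_of_pos_of_neg (by linarith) (by linarith)
    obtain ⟨r, hr, hb⟩ := Metric.eventually_nhds_iff_ball.1 (h1.and (h2.and h3))
    have hBF : ball y r ⊆ F := fun w hw => (hb w hw).1.1
    have hBp : IsPreconnected (ball y r) := (convex_ball y r).isPreconnected
    have hyB : y ∈ ball y r := mem_ball_self hr
    have hoff : ∀ l, l ≠ k → ∀ w ∈ ball y r, (co (o l) (u l) w).im ≠ 0 := by
      intro l hl w hw
      exact (hb w hw).1.2 l (fun h0 => h.vx l k y hl hy h0 hk)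
    have hfst : ∀ l, l ≠ k → ∀ w ∈ ball y r, (cd F o u lg w).1 l = (cd F o u lg y).1 l := fun l hl w hw =>
      side_const hBp (hoff l hl) hw hyB
    have hsnd : ∀ s' : ι × ℝ × ℝ, s' ≠ s → ∀ w ∈ ball y r, (cd F o u lg w).2 s' = (cd F o u lg y).2 s' := by
      intro s' hne w hw
      by_cases hs2 : Sg F o u s'
      · rw [cd_snd hs2, cd_snd hs2]
        refine seg_off h hs2 hBp hBF (fun x hx hx' => ?_) hw hyB
        obtain ⟨t, ht1, ht2, ht3, ht4⟩ := seg_co h hx'
        by_cases hl : s'.1 = k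
        · have h4 : x ∈ seg o u s := by
            rw [hsd]
            have h5 := (hb x hx).2.1
            rw [← hl, ht3, Complex.ofReal_re] at h5
            refine ⟨t, h5, ?_⟩
            rw [ht4, hl]
          exact hne (seg_disj h hs2 hs' hx' h4)
        · exact hoff s'.1 hl x hx (by rw [ht3, Complex.ofReal_im])
      · rw [cd_snd' hs2, cd_snd' hs2]
    obtain ⟨c, hc⟩ := ell_half h.lg hpF hqF hBp hBF (fun w hw => (hb w hw).2.2)
    have hside : ∀ w ∈ ball y r, (0 ≤ ((w - (o k + α * u k)) / (w - (o k + β * u k))).im ↔ (co (o k) (u k) w).im ≤ 0) := by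
      intro w hw
      rw [co_z hu]
      refine co_side (by linarith) ?_
      intro h0
      apply hqF
      have h4 : co (o k) (u k) w = β := sub_eq_zero.1 h0
      have h5 : w = o k + β * u k := by
        unfold co at h4
        rw [div_eq_iff hu] at h4
        linear_combination h4
      rw [← h5]
      exact hBF hw
    have hcy : (cd F o u lg y).2 s = c := by
      rw [cd_snd hs', hsd]
      exact (hc y hyB).1 ((hside y hyB).2 hk.le)
    have hlow : ∀ w ∈ ball y r, (co (o k) (u k) w).im ≤ 0 → cd F o u lg w = cd F o u lg y := by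
      intro w hw hwk
      refine Prod.ext ?_ ?_
      · funext l
        by_cases hl : l = k
        · subst hl
          rw [cd_fst, cd_fst]
          exact propext ⟨fun _ => hk.le, fun _ => hwk⟩
        · exact hfst l hl w hw
      · funext s'
        by_cases he : s' = s
        · rw [he, hcy, cd_snd hs', hsd]
          exact (hc w hw).1 ((hside w hw).2 hwk)
        · exact hsnd s' he w hw
    have hhigh : ∀ w ∈ ball y r, ¬ (co (o k) (u k) w).im ≤ 0 → cd F o u lg w = flip s (cd F o u lg y) := by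
      intro w hw hwk
      have hsk : s.1 = k := by rw [hsd]
      refine Prod.ext ?_ ?_
      · funext l
        by_cases hl : l = s.1
        · rw [hl, flip_fst, cd_fst, hsk]
          exact propext ⟨fun h => absurd h hwk, fun h => h.elim⟩
        · rw [flip_fst' s _ hl]
          exact hfst l (fun h => hl (h.trans hsk.symm)) w hw
      · funext s'
        by_cases he : s' = s
        · rw [he, flip_snd, hcy, cd_snd hs', hsd]
          exact (hc w hw).2 (lt_of_not_ge fun h5 => hwk ((hside w hw).1 h5))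
        · rw [flip_snd' s _ he]
          exact hsnd s' he w hw
    have hE : EE F o u lg (cd F o u lg y) (flip s (cd F o u lg y)) := ⟨s, hs', y, hysg, rfl, rfl⟩
    refine ⟨r, hr, fun w hw w' hw' => ?_⟩
    by_cases c1 : (co (o k) (u k) w).im ≤ 0
    · by_cases c2 : (co (o k) (u k) w').im ≤ 0
      · left
        rw [hlow w hw c1, hlow w' hw' c2]
      · right; left
        rw [hlow w hw c1, hhigh w' hw' c2]
        exact hE
    · by_cases c2 : (co (o k) (u k) w').im ≤ 0
      · right; right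
        rw [hlow w' hw' c2, hhigh w hw c1]
        exact hE
      · left
        rw [hhigh w hw c1, hhigh w' hw' c2]
  · push Not at hex
    obtain ⟨r, hr, hb⟩ := Metric.eventually_nhds_iff_ball.1 h1
    have hBF : ball y r ⊆ F := fun w hw => (hb w hw).1
    have hBp : IsPreconnected (ball y r) := (convex_ball y r).isPreconnected
    have hoff : ∀ l, ∀ w ∈ ball y r, (co (o l) (u l) w).im ≠ 0 := fun l w hw => (hb w hw).2 l (hex l)
    refine ⟨r, hr, fun w hw w' hw' => Or.inl (Prod.ext ?_ ?_)⟩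
    · funext l
      exact side_const hBp (hoff l) hw hw'
    · funext s'
      by_cases hs2 : Sg F o u s'
      · rw [cd_snd hs2, cd_snd hs2]
        refine seg_off h hs2 hBp hBF (fun x hx hx' => ?_) hw hw'
        obtain ⟨t, ht1, ht2, ht3, ht4⟩ := seg_co h hx'
        exact hoff s'.1 x hx (by rw [ht3, Complex.ofReal_im])
      · rw [cd_snd' hs2, cd_snd' hs2]

end Pool.Agent.H64.TL
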