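import Pool.Agent.H64.TL.Walk
import Pool.Agent.H81.RW.Lgf

/-!
# Codes of the points of a full open set cut by lines

`F` is open, every point outside `F` has a continuous logarithm `lg v` of `w - v` on `F`. Lines `o k + t * u k`, no two of them
meet inside `F`. `Sg`: maximal segments of the lines in `F`. `ell`: the integer `(lg p - lg q - log ((w - p) / (w - q))) / 2 π i`,
which is constant off the segment and jumps by one across it. `cd`: the code: the sides of all lines, and all `ell`. `EE`: one edge
for every segment. `cd_br`: every edge is a bridge. `cd_loc`: nearby points have equal or adjacent codes.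
-/

set_option autoImplicit false

open Filter Topology Metric Set

namespace Pool.Agent.H64.TL

open Pool.Agent.H81.RW (log_uniq)

/-- the integer -/
noncomputable def ell (lg : ℂ → ℂ → ℂ) (p q w : ℂ) : ℂ :=
  (lg p w - lg q w - Complex.log ((w - p) / (w - q))) / (2 * Real.pi * Complex.I)

/-- logarithms on `F` -/
def LG (F : Set ℂ) (lg : ℂ → ℂ → ℂ) : Prop :=
  ∀ v ∉ F, ContinuousOn (lg v) F ∧ ∀ w ∈ F, Complex.exp (lg v w) = w - v

theorem ell_off {F : Set ℂ} {lg : ℂ → ℂ → ℂ} (h : LG F lg) {p q : ℂ} (hp : p ∉ F) (hq : q ∉ F) {S : Set ℂ}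
    (hS : IsPreconnected S) (hSF : S ⊆ F) (hz : ∀ w ∈ S, (w - p) / (w - q) ∈ Complex.slitPlane) {w w' : ℂ}
    (hw : w ∈ S) (hw' : w' ∈ S) : ell lg p q w = ell lg p q w' := by
  have hne : ∀ w ∈ S, w - p ≠ 0 ∧ w - q ≠ 0 := fun w hw =>
    ⟨sub_ne_zero.2 fun h => hp (h ▸ hSF hw), sub_ne_zero.2 fun h => hq (h ▸ hSF hw)⟩
  obtain ⟨K, hK⟩ : ∃ K, K = lg p w' - lg q w' - Complex.log ((w' - p) / (w' - q)) := ⟨_, rfl⟩
  have e1 : ∀ w ∈ S, Complex.exp (lg p w - lg q w) = (w - p) / (w - q) := by
    intro w hw
    rw [Complex.exp_sub, (h p hp).2 w (hSF hw), (h q hq).2 w (hSF hw)]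
  have e2 : ∀ w ∈ S, Complex.exp (Complex.log ((w - p) / (w - q))) = (w - p) / (w - q) := by
    intro w hw
    exact Complex.exp_log (div_ne_zero (hne w hw).1 (hne w hw).2)
  have e3 : Complex.exp K = 1 := by
    rw [hK, Complex.exp_sub, e1 w' hw', e2 w' hw', div_self (div_ne_zero (hne w' hw').1 (hne w' hw').2)]
  have hc : ContinuousOn (fun w => (w - p) / (w - q)) S :=
    ((continuous_id.sub continuous_const).continuousOn).div ((continuous_id.sub continuous_const).continuousOn)
      fun w hw => (hne w hw).2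
  have key := log_uniq hS (l := fun w => lg p w - lg q w) (l' := fun w => Complex.log ((w - p) / (w - q)) + K)
    (((h p hp).1.mono hSF).sub ((h q hq).1.mono hSF))
    ((hc.clog fun w hw => hz w hw).add continuousOn_const)
    (fun w hw => by
      show Complex.exp (lg p w - lg q w) = Complex.exp (Complex.log ((w - p) / (w - q)) + K)
      rw [Complex.exp_add, e3, mul_one, e1 w hw, e2 w hw]) hw' (by
      show lg p w' - lg q w' = Complex.log ((w' - p) / (w' - q)) + K
      rw [hK]
      ring) w hw
  have key' : lg p w - lg q w = Complex.log ((w - p) / (w - q)) + K := key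
  unfold ell
  congr 1
  rw [key', ← hK]
  ring

theorem ell_half {F : Set ℂ} {lg : ℂ → ℂ → ℂ} (h : LG F lg) {p q : ℂ} (hp : p ∉ F) (hq : q ∉ F) {S : Set ℂ}
    (hS : IsPreconnected S) (hSF : S ⊆ F) (hz : ∀ w ∈ S, ((w - p) / (w - q)).re < 0) : ∃ c : ℂ, ∀ w ∈ S,
      (0 ≤ ((w - p) / (w - q)).im → ell lg p q w = c) ∧ (((w - p) / (w - q)).im < 0 → ell lg p q w = c + 1) := by
  rcases S.eq_empty_or_nonempty with rfl | ⟨x, hx⟩
  · exact ⟨0, fun w hw => absurd hw (notMem_empty w)⟩
  have hne : ∀ w ∈ S, w - p ≠ 0 ∧ w - q ≠ 0 := fun w hw =>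
    ⟨sub_ne_zero.2 fun h => hp (h ▸ hSF hw), sub_ne_zero.2 fun h => hq (h ▸ hSF hw)⟩
  obtain ⟨z, hzd⟩ : ∃ z : ℂ → ℂ, z = fun w => (w - p) / (w - q) := ⟨_, rfl⟩
  have hz' : ∀ w ∈ S, (z w).re < 0 := by rw [hzd]; exact hz
  have hz0 : ∀ w ∈ S, z w ≠ 0 := fun w hw h0 => by
    have := hz' w hw
    rw [h0] at this
    simp at this
  obtain ⟨K, hK⟩ : ∃ K, K = lg p x - lg q x - Complex.log (-z x) - Real.pi * Complex.I := ⟨_, rfl⟩
  have e1 : ∀ w ∈ S, Complex.exp (lg p w - lg q w) = z w := by
    intro w hw
    rw [Complex.exp_sub, (h p hp).2 w (hSF hw), (h q hq).2 w (hSF hw), hzd]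
  have e2 : ∀ w ∈ S, Complex.exp (Complex.log (-z w)) = -z w := fun w hw =>
    Complex.exp_log (neg_ne_zero.2 (hz0 w hw))
  have e3 : Complex.exp K = 1 := by
    rw [hK, Complex.exp_sub, Complex.exp_sub, e1 x hx, e2 x hx, Complex.exp_pi_mul_I]
    have := hz0 x hx
    field_simp
  have hc : ContinuousOn z S := by
    rw [hzd]
    exact ((continuous_id.sub continuous_const).continuousOn).div ((continuous_id.sub continuous_const).continuousOn)
      fun w hw => (hne w hw).2
  have hsl : ∀ w ∈ S, -z w ∈ Complex.slitPlane := fun w hw => Or.inl (by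
    rw [Complex.neg_re]
    linarith [hz' w hw])
  have key := log_uniq hS (l := fun w => lg p w - lg q w)
    (l' := fun w => Complex.log (-z w) + Real.pi * Complex.I + K)
    (((h p hp).1.mono hSF).sub ((h q hq).1.mono hSF))
    (((hc.neg.clog fun w hw => hsl w hw).add continuousOn_const).add continuousOn_const)
    (fun w hw => by
      show Complex.exp (lg p w - lg q w) = Complex.exp (Complex.log (-z w) + Real.pi * Complex.I + K)
      rw [Complex.exp_add, e3, mul_one, Complex.exp_add, Complex.exp_pi_mul_I, e1 w hw, e2 w hw]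
      ring) hx (by
      show lg p x - lg q x = Complex.log (-z x) + Real.pi * Complex.I + K
      rw [hK]
      ring)
  have hpi : (2 * Real.pi * Complex.I : ℂ) ≠ 0 := Complex.two_pi_I_ne_zero
  refine ⟨K / (2 * Real.pi * Complex.I), fun w hw => ?_⟩
  have key' : lg p w - lg q w = Complex.log (-z w) + Real.pi * Complex.I + K := key w hw
  have hre : 0 < (-z w).re := by
    rw [Complex.neg_re]
    linarith [hz' w hw]
  have harg := Complex.abs_arg_lt_pi_div_two_iff.2 (Or.inl hre)
  rw [abs_lt] at harg
  have hell : ell lg p q w = (Complex.log (-z w) + Real.pi * Complex.I + K - Complex.log (z w)) /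
      (2 * Real.pi * Complex.I) := by
    unfold ell
    rw [key', hzd]
  have hzw : (w - p) / (w - q) = z w := by rw [hzd]
  rw [hzw]
  constructor
  · intro him
    have h1 : Complex.arg (-z w) ≤ 0 := by
      rcases him.eq_or_lt with h2 | h2
      · have h3 : (-z w).im = 0 := by rw [Complex.neg_im, ← h2, neg_zero]
        exact (Complex.arg_eq_zero_iff.2 ⟨hre.le, h3⟩).le
      · exact (Complex.arg_neg_iff.2 (by rw [Complex.neg_im]; linarith)).le
    have h2 : Complex.log (z w) = Complex.log (-z w) + Real.pi * Complex.I := by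
      have h3 : Complex.exp (Complex.log (-z w) + Real.pi * Complex.I) = z w := by
        rw [Complex.exp_add, Complex.exp_pi_mul_I, e2 w hw]
        ring
      have h4 := Complex.log_exp (x := Complex.log (-z w) + Real.pi * Complex.I) (by
        simp only [Complex.add_im, Complex.log_im, Complex.mul_im, Complex.ofReal_re, Complex.I_im, Complex.ofReal_im,
          Complex.I_re, mul_one, mul_zero, add_zero]
        linarith [Real.pi_pos]) (by
        simp only [Complex.add_im, Complex.log_im, Complex.mul_im, Complex.ofReal_re, Complex.I_im, Complex.ofReal_im,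
          Complex.I_re, mul_one, mul_zero, add_zero]
        linarith [Real.pi_pos])
      rw [h3] at h4
      exact h4
    rw [hell, h2]
    congr 1
    ring
  · intro him
    have h1 : 0 < Complex.arg (-z w) := by
      have h3 : 0 < (-z w).im := by rw [Complex.neg_im]; linarith
      rcases lt_trichotomy (Complex.arg (-z w)) 0 with h4 | h4 | h4
      · exact absurd (Complex.arg_neg_iff.1 h4) (by linarith)
      · have := (Complex.arg_eq_zero_iff.1 h4).2
        linarith
      · exact h4
    have h2 : Complex.log (z w) = Complex.log (-z w) - Real.pi * Complex.I := by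
      have h3 : Complex.exp (Complex.log (-z w) - Real.pi * Complex.I) = z w := by
        rw [Complex.exp_sub, Complex.exp_pi_mul_I, e2 w hw]
        ring
      have h4 := Complex.log_exp (x := Complex.log (-z w) - Real.pi * Complex.I) (by
        simp only [Complex.sub_im, Complex.log_im, Complex.mul_im, Complex.ofReal_re, Complex.I_im, Complex.ofReal_im,
          Complex.I_re, mul_one, mul_zero, add_zero]
        linarith [Real.pi_pos]) (by
        simp only [Complex.sub_im, Complex.log_im, Complex.mul_im, Complex.ofReal_re, Complex.I_im, Complex.ofReal_im,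
          Complex.I_re, mul_one, mul_zero, add_zero]
        linarith [Real.pi_pos])
      rw [h3] at h4
      exact h4
    rw [hell, h2]
    rw [div_add_one hpi]
    congr 1
    ring

/-- coordinates along a line -/
noncomputable def co (o u w : ℂ) : ℂ := (w - o) / u

theorem co_add {o u : ℂ} (hu : u ≠ 0) (t : ℝ) : co o u (o + t * u) = t := by
  unfold co
  rw [add_sub_cancel_left, mul_div_assoc, div_self hu, mul_one]

theorem co_z {o u w : ℂ} (hu : u ≠ 0) (α β : ℝ) :
    (w - (o + α * u)) / (w - (o + β * u)) = (co o u w - α) / (co o u w - β) := by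
  unfold co
  rw [div_sub' hu, div_sub' hu, div_div_div_cancel_right₀ hu]
  congr 1 <;> ring

theorem co_im {W : ℂ} (α β : ℝ) : ((W - α) / (W - β)).im = W.im * (α - β) / Complex.normSq (W - β) := by
  rw [Complex.div_im]
  simp only [Complex.sub_re, Complex.sub_im, Complex.ofReal_re, Complex.ofReal_im, sub_zero]
  rw [← sub_div]
  congr 1
  ring

theorem co_side {W : ℂ} {α β : ℝ} (h : α < β) (hW : W - β ≠ 0) : (0 ≤ ((W - α) / (W - β)).im ↔ W.im ≤ 0) := by
  have h1 : 0 < Complex.normSq (W - β) := Complex.normSq_pos.2 hW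
  rw [co_im, div_nonneg_iff]
  constructor
  · rintro (⟨h2, -⟩ | ⟨-, h3⟩)
    · nlinarith
    · linarith
  · intro h2
    exact Or.inl ⟨by nlinarith, h1.le⟩

/-- off the segment the quotient is in the slit plane -/
theorem co_slit {W : ℂ} {α β : ℝ} (h : α < β) (hα : W ≠ α) (hβ : W ≠ β)
    (hW : ∀ t : ℝ, α < t → t < β → W ≠ t) : (W - α) / (W - β) ∈ Complex.slitPlane := by
  rw [Complex.mem_slitPlane_iff]
  have hb : W - β ≠ 0 := sub_ne_zero.2 hβ
  have h1 : 0 < Complex.normSq (W - β) := Complex.normSq_pos.2 hb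
  by_cases him : W.im = 0
  · left
    have hWr : W = (W.re : ℂ) := Complex.ext rfl (by rw [him, Complex.ofReal_im])
    have h2 : (W - α) / (W - β) = (((W.re - α) / (W.re - β) : ℝ) : ℂ) := by
      rw [hWr]
      push_cast
      simp
    rw [h2, Complex.ofReal_re]
    have hα' : W.re ≠ α := fun h3 => hα (by rw [hWr, h3])
    have hβ' : W.re ≠ β := fun h3 => hβ (by rw [hWr, h3])
    rcases lt_or_gt_of_ne hα' with h3 | h3
    · exact div_pos_of_neg_of_neg (by linarith) (by linarith)
    · rcases lt_or_gt_of_ne hβ' with h4 | h4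
      · exact absurd hWr (hW W.re h3 h4)
      · exact div_pos (by linarith) (by linarith)
  · right
    rw [co_im]
    exact div_ne_zero (mul_ne_zero him (sub_ne_zero.2 h.ne)) h1.ne'

end Pool.Agent.H64.TL
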