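import Pool.Agent.H64.TL.Cell

/-!
# Fine grids with vertices off a closed set without interior
-/

set_option autoImplicit false

open Filter Topology Metric Set

namespace Pool.Agent.H64.TL

/-- base points of the lines -/
noncomputable def oo {m : ℕ} (a b : Fin m → ℝ) : Fin m ⊕ Fin m → ℂ :=
  Sum.elim (fun i => (a i : ℂ)) (fun j => (b j : ℂ) * Complex.I)

/-- directions of the lines -/
noncomputable def uu {m : ℕ} : Fin m ⊕ Fin m → ℂ := Sum.elim (fun _ => Complex.I) (fun _ => 1)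

theorem co_inl {m : ℕ} (a b : Fin m → ℝ) (i : Fin m) (w : ℂ) :
    (co (oo a b (Sum.inl i)) (uu (Sum.inl i : Fin m ⊕ Fin m)) w).im = a i - w.re := by
  unfold co oo uu
  simp only [Sum.elim_inl]
  rw [Complex.div_I]
  simp

theorem co_inr {m : ℕ} (a b : Fin m → ℝ) (j : Fin m) (w : ℂ) :
    (co (oo a b (Sum.inr j)) (uu (Sum.inr j : Fin m ⊕ Fin m)) w).im = w.im - b j := by
  unfold co oo uu
  simp

/-- two lines between `x` and `x'` -/
theorem two_lines {R h : ℝ} (hh : 0 < h) {m : ℕ} (hm : 2 * R ≤ m * h) {a : Fin m → ℝ}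
    (ha : ∀ i : Fin m, |a i - (-R + (i : ℕ) * h)| < h / 4) {x x' : ℝ} (hx : -R ≤ x) (hx' : x' ≤ R)
    (hxx : x + 3 * h ≤ x') : ∃ i j : Fin m, i ≠ j ∧ x < a i ∧ a i < x' ∧ x < a j ∧ a j < x' := by
  obtain ⟨n, hn⟩ : ∃ n : ℕ, n = ⌈(x + h / 4 + R) / h⌉₊ := ⟨_, rfl⟩
  have h0 : 0 ≤ (x + h / 4 + R) / h := div_nonneg (by linarith) hh.le
  have h1 : (x + h / 4 + R) / h ≤ n := hn ▸ Nat.le_ceil _
  have h2 : (n : ℝ) < (x + h / 4 + R) / h + 1 := hn ▸ Nat.ceil_lt_add_one h0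
  rw [div_le_iff₀ hh] at h1
  have h3 : (n : ℝ) * h < x + h / 4 + R + h := by
    have := mul_lt_mul_of_pos_right h2 hh
    rwa [add_mul, div_mul_cancel₀ _ hh.ne', one_mul] at this
  have hnm : n + 1 < m := by
    have h4 : ((n + 1 : ℕ) : ℝ) * h < m * h := by
      push_cast
      linarith
    exact_mod_cast lt_of_mul_lt_mul_right h4 hh.le
  have e1 := ha ⟨n, by omega⟩
  have e2 := ha ⟨n + 1, hnm⟩
  rw [abs_lt] at e1 e2
  simp only at e1 e2
  push_cast at e2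
  refine ⟨⟨n, by omega⟩, ⟨n + 1, hnm⟩, ?_, ?_, ?_, ?_, ?_⟩
  · intro h
    have := congrArg Fin.val h
    simp at this
  · linarith [e1.1]
  · linarith [e1.2]
  · linarith [e2.1]
  · linarith [e2.2]

theorem dense_vx {Y : Set ℂ} (hYc : IsClosed Y) (hint : interior Y = ∅) (m : ℕ) :
    Dense {p : (Fin m → ℝ) × (Fin m → ℝ) | ∀ i j, ((p.1 i : ℂ) + p.2 j * Complex.I) ∉ Y} := by
  have e1 : {p : (Fin m → ℝ) × (Fin m → ℝ) | ∀ i j, ((p.1 i : ℂ) + p.2 j * Complex.I) ∉ Y} =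
      ⋂ k : Fin m × Fin m, {p : (Fin m → ℝ) × (Fin m → ℝ) | ((p.1 k.1 : ℂ) + p.2 k.2 * Complex.I) ∈ Yᶜ} := by
    ext p
    simp only [mem_ofPred_eq, mem_iInter, mem_compl_iff, Prod.forall]
  rw [e1]
  refine dense_iInter_of_isOpen (fun k => ?_) (fun k => ?_)
  · exact hYc.isOpen_compl.preimage (by fun_prop)
  · have h1 : IsOpenMap fun p : (Fin m → ℝ) × (Fin m → ℝ) => (p.1 k.1, p.2 k.2) :=
      (isOpenMap_eval k.1).prodMap (isOpenMap_eval k.2)
    have h2 : IsOpenMap fun p : (Fin m → ℝ) × (Fin m → ℝ) => Complex.equivRealProdCLM.symm (p.1 k.1, p.2 k.2) :=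
      Complex.equivRealProdCLM.symm.toHomeomorph.isOpenMap.comp h1
    have h3 : Dense (Yᶜ) := by
      rw [← interior_eq_empty_iff_dense_compl]
      exact hint
    have h4 := h3.preimage h2
    have h5 : {p : (Fin m → ℝ) × (Fin m → ℝ) | ((p.1 k.1 : ℂ) + p.2 k.2 * Complex.I) ∈ Yᶜ} =
        (fun p : (Fin m → ℝ) × (Fin m → ℝ) => Complex.equivRealProdCLM.symm (p.1 k.1, p.2 k.2)) ⁻¹' Yᶜ := by
      ext p
      have h6 : Complex.equivRealProdCLM.symm (p.1 k.1, p.2 k.2) = (p.1 k.1 : ℂ) + p.2 k.2 * Complex.I := by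
        apply Complex.ext <;> simp
      rw [mem_preimage, h6]
      rfl
    rw [h5]
    exact h4

/-- fine grids with vertices off `Y` -/
theorem grid_ex {Y : Set ℂ} (hYc : IsClosed Y) (hint : interior Y = ∅) {R ν : ℝ} (hR : 0 < R) (hν : 0 < ν) :
    ∃ (m : ℕ) (a b : Fin m → ℝ), 0 < m ∧ Function.Injective a ∧ Function.Injective b ∧
      (∀ i j, ((a i : ℂ) + b j * Complex.I) ∉ Y) ∧
      ∀ w w' : ℂ, ‖w‖ ≤ R → ‖w'‖ ≤ R → (∃ k : Fin m ⊕ Fin m, ∀ l ≠ k,
        ((co (oo a b l) (uu l) w).im ≤ 0) = ((co (oo a b l) (uu l) w').im ≤ 0)) → dist w w' ≤ ν := by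
  obtain ⟨h, hh⟩ : ∃ h : ℝ, h = ν / 6 := ⟨_, rfl⟩
  have hh0 : 0 < h := by rw [hh]; positivity
  obtain ⟨m, hm⟩ : ∃ m : ℕ, m = ⌈2 * R / h⌉₊ := ⟨_, rfl⟩
  have hm1 : 2 * R ≤ m * h := by
    have := Nat.le_ceil (2 * R / h)
    rw [← hm, div_le_iff₀ hh0] at this
    exact this
  obtain ⟨p, hp, hpb⟩ := (dense_vx hYc hint m).exists_mem_open (U := ball ((fun i : Fin m => -R + (i : ℕ) * h),
    (fun i : Fin m => -R + (i : ℕ) * h)) (h / 4)) isOpen_ball ⟨_, mem_ball_self (by positivity)⟩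
  rw [mem_ball, Prod.dist_eq, max_lt_iff] at hpb
  have ha : ∀ i : Fin m, |p.1 i - (-R + (i : ℕ) * h)| < h / 4 := fun i => by
    rw [← Real.dist_eq]
    exact (dist_le_pi_dist p.1 _ i).trans_lt hpb.1
  have hb : ∀ i : Fin m, |p.2 i - (-R + (i : ℕ) * h)| < h / 4 := fun i => by
    rw [← Real.dist_eq]
    exact (dist_le_pi_dist p.2 _ i).trans_lt hpb.2
  have hinj : ∀ a : Fin m → ℝ, (∀ i : Fin m, |a i - (-R + (i : ℕ) * h)| < h / 4) → Function.Injective a := by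
    intro a ha i j hij
    have e1 := ha i
    have e2 := ha j
    rw [hij] at e1
    rw [abs_lt] at e1 e2
    have e3 : ((i : ℕ) : ℝ) * h - (j : ℕ) * h < h := by linarith [e1.1, e2.2]
    have e4 : ((j : ℕ) : ℝ) * h - (i : ℕ) * h < h := by linarith [e1.2, e2.1]
    rw [← sub_mul] at e3 e4
    have e5 : ((i : ℕ) : ℝ) - (j : ℕ) < 1 := by nlinarith
    have e6 : ((j : ℕ) : ℝ) - (i : ℕ) < 1 := by nlinarith
    have e7 : (i : ℕ) < (j : ℕ) + 1 := by exact_mod_cast (by linarith : ((i : ℕ) : ℝ) < (j : ℕ) + 1)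
    have e8 : (j : ℕ) < (i : ℕ) + 1 := by exact_mod_cast (by linarith : ((j : ℕ) : ℝ) < (i : ℕ) + 1)
    exact Fin.ext (by omega)
  refine ⟨m, p.1, p.2, ?_, hinj _ ha, hinj _ hb, hp, ?_⟩
  · rw [hm]
    exact Nat.ceil_pos.2 (by positivity)
  -- one direction
  have key1 : ∀ w w' : ℂ, ‖w‖ ≤ R → ‖w'‖ ≤ R → (∃ k : Fin m ⊕ Fin m, ∀ l ≠ k,
      ((co (oo p.1 p.2 l) (uu l) w).im ≤ 0) = ((co (oo p.1 p.2 l) (uu l) w').im ≤ 0)) → w'.re < w.re + 3 * h := by
    rintro w w' hw hw' ⟨k, hk⟩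
    by_contra hcon
    push Not at hcon
    obtain ⟨i, j, hij, h1, h2, h3, h4⟩ := two_lines hh0 hm1 ha (x := w.re) (x' := w'.re)
      (by have := Complex.abs_re_le_norm w; have := neg_abs_le w.re; linarith)
      (by have := Complex.abs_re_le_norm w'; have := le_abs_self w'.re; linarith) hcon
    have key : ∀ i : Fin m, w.re < p.1 i → p.1 i < w'.re → Sum.inl i = k := by
      intro i hi1 hi2
      by_contra hne
      have h5 := hk (Sum.inl i) hne
      rw [co_inl, co_inl] at h5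
      have h6 : p.1 i - w'.re ≤ 0 := by linarith
      rw [← h5] at h6
      linarith
    have h5 := (key i h1 h2).trans (key j h3 h4).symm
    exact hij (Sum.inl_injective h5)
  have key2 : ∀ w w' : ℂ, ‖w‖ ≤ R → ‖w'‖ ≤ R → (∃ k : Fin m ⊕ Fin m, ∀ l ≠ k,
      ((co (oo p.1 p.2 l) (uu l) w).im ≤ 0) = ((co (oo p.1 p.2 l) (uu l) w').im ≤ 0)) → w'.im < w.im + 3 * h := by
    rintro w w' hw hw' ⟨k, hk⟩
    by_contra hcon
    push Not at hcon
    obtain ⟨i, j, hij, h1, h2, h3, h4⟩ := two_lines hh0 hm1 hb (x := w.im) (x' := w'.im)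
      (by have := Complex.abs_im_le_norm w; have := neg_abs_le w.im; linarith)
      (by have := Complex.abs_im_le_norm w'; have := le_abs_self w'.im; linarith) hcon
    have key : ∀ i : Fin m, w.im < p.2 i → p.2 i < w'.im → Sum.inr i = k := by
      intro i hi1 hi2
      by_contra hne
      have h5 := hk (Sum.inr i) hne
      rw [co_inr, co_inr] at h5
      have h6 : w.im - p.2 i ≤ 0 := by linarith
      rw [h5] at h6
      linarith
    have h5 := (key i h1 h2).trans (key j h3 h4).symm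
    exact hij (Sum.inr_injective h5)
  intro w w' hw hw' hk
  have hk' : ∃ k : Fin m ⊕ Fin m, ∀ l ≠ k,
      ((co (oo p.1 p.2 l) (uu l) w').im ≤ 0) = ((co (oo p.1 p.2 l) (uu l) w).im ≤ 0) := by
    obtain ⟨k, hk⟩ := hk
    exact ⟨k, fun l hl => (hk l hl).symm⟩
  have r1 := key1 w w' hw hw' hk
  have r2 := key1 w' w hw' hw hk'
  have i1 := key2 w w' hw hw' hk
  have i2 := key2 w' w hw' hw hk'
  have h1 : |(w - w').re| ≤ 3 * h := by
    rw [Complex.sub_re, abs_le]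
    constructor <;> linarith
  have h2 : |(w - w').im| ≤ 3 * h := by
    rw [Complex.sub_im, abs_le]
    constructor <;> linarith
  rw [dist_eq_norm]
  calc ‖w - w'‖ ≤ |(w - w').re| + |(w - w').im| := Complex.norm_le_abs_re_add_abs_im _
    _ ≤ 3 * h + 3 * h := add_le_add h1 h2
    _ = ν := by rw [hh]; ring

end Pool.Agent.H64.TL
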