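import Pool.Agent.H64.TL.Grid
import Pool.Agent.H39.HO.FN

/-!
# THEOREM T: locally injective maps onto full sets without interior are injective

`tree_inj`: `X` compact connected, `f : X → ℂ` continuous and locally injective, the image full (no holes) and without interior
points. Then `f` is injective. (For maps onto tree-like continua this goes back to Mackowiak; here the image is a planar set, and
the proof cuts a full neighbourhood of the image along a grid whose vertices are off the image.)
-/

set_option autoImplicit false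

open Filter Topology Metric Set

namespace Pool.Agent.H64.TL

open Pool.Agent.H56.TH (Full)

/-- components of full open sets are full -/
theorem comp_full {A : Set ℂ} (hA : IsOpen A) (hF : Full A) (y : ℂ) : Full (connectedComponentIn A y) := by
  intro O hO hb hfr o ho
  have hCA : connectedComponentIn A y ⊆ A := connectedComponentIn_subset A y
  have hOA : O ⊆ A := hF O hO hb (hfr.trans hCA)
  have hoC : o ∈ connectedComponentIn A o := mem_connectedComponentIn (hOA ho)
  have hCp : IsPreconnected (connectedComponentIn A o) := isPreconnected_connectedComponentIn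
  have hCo : IsOpen (connectedComponentIn A o) := hA.connectedComponentIn
  have hne : (connectedComponentIn A o ∩ frontier O).Nonempty := by
    by_contra hcon
    have h1 : connectedComponentIn A o ⊆ O := by
      refine hCp.subset_left_of_subset_union hO isClosed_closure.isOpen_compl
        (disjoint_left.2 fun x h1 h2 => h2 (subset_closure h1)) (fun x hx => ?_) ⟨o, hoC, ho⟩
      by_cases hxO : x ∈ O
      · exact Or.inl hxO
      · refine Or.inr fun hxc => hcon ⟨x, hx, ?_⟩
        rw [hO.frontier_eq]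
        exact ⟨hxc, hxO⟩
    have h2 : closure (connectedComponentIn A o) ⊆ A := by
      refine (closure_mono h1).trans ?_
      rw [closure_eq_self_union_frontier]
      exact union_subset hOA (hfr.trans hCA)
    have h3 : closure (connectedComponentIn A o) ⊆ connectedComponentIn A o :=
      hCp.closure.subset_connectedComponentIn (subset_closure hoC) h2
    have h4 : IsClopen (connectedComponentIn A o) := ⟨isClosed_of_closure_subset h3, hCo⟩
    rcases isClopen_iff.1 h4 with h5 | h5
    · rw [h5] at hoC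
      exact hoC
    · have h6 : Bornology.IsBounded (univ : Set ℂ) := by
        rw [← h5]
        exact hb.subset h1
      exact NoncompactSpace.noncompact_univ (X := ℂ) (isCompact_of_isClosed_isBounded isClosed_univ h6)
  obtain ⟨x, hx, hx2⟩ := hne
  have h1 : connectedComponentIn A o = connectedComponentIn A x := connectedComponentIn_eq hx
  have h2 : connectedComponentIn A y = connectedComponentIn A x := connectedComponentIn_eq (hfr hx2)
  rw [h2, ← h1]
  exact hoC

/-- uniform local injectivity -/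
theorem inj_unif {X : Type*} [MetricSpace X] [CompactSpace X] {f : X → ℂ} (hf : Continuous f)
    (hloc : ∀ x, ∃ U ∈ 𝓝 x, InjOn f U) : ∃ r : ℝ, 0 < r ∧ (∀ x x', dist x x' < r → f x = f x' → x = x') ∧
      ∃ ν : ℝ, 0 < ν ∧ ∀ x x', dist x x' ≤ r / 2 → dist (f x) (f x') ≤ ν → dist x x' < r / 8 := by
  choose U hU hUi using hloc
  obtain ⟨r, hr, hrU⟩ := lebesgue_number_lemma_of_metric (s := (univ : Set X)) (c := fun x => interior (U x))
    isCompact_univ (fun x => isOpen_interior) (fun x _ => mem_iUnion.2 ⟨x, mem_interior_iff_mem_nhds.2 (hU x)⟩)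
  have h1 : ∀ x x', dist x x' < r → f x = f x' → x = x' := by
    intro x x' hd he
    obtain ⟨i, hi⟩ := hrU x (mem_univ _)
    exact hUi i (interior_subset (hi (mem_ball_self hr))) (interior_subset (hi (by rwa [mem_ball, dist_comm]))) he
  refine ⟨r, hr, h1, ?_⟩
  obtain ⟨Z, hZ⟩ : ∃ Z, Z = {p : X × X | r / 8 ≤ dist p.1 p.2 ∧ dist p.1 p.2 ≤ r / 2} := ⟨_, rfl⟩
  have hZc : IsCompact Z := by
    have : IsClosed Z := by
      rw [hZ]
      exact (isClosed_le continuous_const continuous_dist).inter (isClosed_le continuous_dist continuous_const)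
    exact this.isCompact
  rcases Z.eq_empty_or_nonempty with h0 | h0
  · refine ⟨1, one_pos, fun x x' hd _ => ?_⟩
    by_contra hcon
    push Not at hcon
    have : (x, x') ∈ Z := by
      rw [hZ]
      exact ⟨hcon, hd⟩
    rw [h0] at this
    exact this
  · have hcont : Continuous fun p : X × X => dist (f p.1) (f p.2) :=
      (hf.comp continuous_fst).dist (hf.comp continuous_snd)
    obtain ⟨p, hp, hmin⟩ := hZc.exists_isMinOn h0 hcont.continuousOn
    have hpos : 0 < dist (f p.1) (f p.2) := by
      rw [hZ] at hp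
      refine dist_pos.2 fun he => ?_
      have := h1 _ _ (by linarith [hp.2]) he
      have h2 := hp.1
      rw [this, dist_self] at h2
      linarith
    refine ⟨dist (f p.1) (f p.2) / 2, by positivity, fun x x' hd he => ?_⟩
    by_contra hcon
    push Not at hcon
    have h2 : (x, x') ∈ Z := by
      rw [hZ]
      exact ⟨hcon, hd⟩
    have h3 : dist (f p.1) (f p.2) ≤ dist (f x) (f x') := hmin h2
    linarith

/-- chains of small steps -/
theorem eta_chain {X : Type*} [MetricSpace X] [PreconnectedSpace X] {η : ℝ} (hη : 0 < η) (x x' : X) :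
    ∃ (n : ℕ) (s : ℕ → X), s 0 = x ∧ s n = x' ∧ ∀ i < n, dist (s i) (s (i + 1)) < η := by
  obtain ⟨S, hS⟩ : ∃ S : Set X, S = {x' | ∃ (n : ℕ) (s : ℕ → X), s 0 = x ∧ s n = x' ∧
      ∀ i < n, dist (s i) (s (i + 1)) < η} := ⟨_, rfl⟩
  have hstep : ∀ y ∈ S, ∀ z, dist y z < η → z ∈ S := by
    intro y hy z hz
    rw [hS] at hy ⊢
    obtain ⟨n, s, h0, h1, h2⟩ := hy
    refine ⟨n + 1, fun i => if i ≤ n then s i else z, ?_, ?_, fun i hi => ?_⟩
    · show (if 0 ≤ n then s 0 else z) = x
      rw [if_pos (Nat.zero_le _), h0]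
    · show (if n + 1 ≤ n then s (n + 1) else z) = z
      rw [if_neg (by omega)]
    · show dist (if i ≤ n then s i else z) (if i + 1 ≤ n then s (i + 1) else z) < η
      rcases Nat.lt_or_ge i n with h | h
      · rw [if_pos h.le, if_pos (by omega)]
        exact h2 i h
      · obtain rfl : i = n := by omega
        rw [if_pos le_rfl, if_neg (by omega), h1]
        exact hz
  have hxS : x ∈ S := by
    rw [hS]
    exact ⟨0, fun _ => x, rfl, rfl, fun i hi => absurd hi (by omega)⟩
  have hclo : IsClopen S := by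
    constructor
    · rw [← isOpen_compl_iff, Metric.isOpen_iff]
      intro z hz
      refine ⟨η, hη, fun y hy hyS => hz (hstep y hyS z ?_)⟩
      exact mem_ball.1 hy
    · rw [Metric.isOpen_iff]
      intro y hy
      exact ⟨η, hη, fun z hz => hstep y hy z (by rw [dist_comm]; exact mem_ball.1 hz)⟩
  have huniv : S = univ := hclo.eq_univ ⟨x, hxS⟩
  have : x' ∈ S := huniv ▸ mem_univ x'
  rw [hS] at this
  exact this

/-- THEOREM T -/
theorem tree_inj {X : Type*} [MetricSpace X] [CompactSpace X] [PreconnectedSpace X] {f : X → ℂ} (hf : Continuous f)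
    (hloc : ∀ x, ∃ U ∈ 𝓝 x, InjOn f U) (hfull : Full (range f)) (hint : interior (range f) = ∅) :
    Function.Injective f := by
  intro x1 x2 hx12
  obtain ⟨r, hr, hri, ν, hν, hνi⟩ := inj_unif hf hloc
  obtain ⟨Y, hY⟩ : ∃ Y, Y = range f := ⟨_, rfl⟩
  rw [← hY] at hfull hint
  have hYc : IsCompact Y := hY ▸ isCompact_range hf
  have hfY : ∀ x, f x ∈ Y := fun x => hY ▸ mem_range_self x
  obtain ⟨R, hR, hRY⟩ := hYc.isBounded.subset_closedBall_lt 0 0
  obtain ⟨m, a, b, hm, hai, hbi, hv, hmesh⟩ := grid_ex hYc.isClosed hint hR hν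
  -- the full neighbourhood
  obtain ⟨W, hW⟩ : ∃ W : Set ℂ, W = (range fun k : Fin m × Fin m => (a k.1 : ℂ) + b k.2 * Complex.I)ᶜ := ⟨_, rfl⟩
  have hWo : IsOpen W := by
    rw [hW]
    exact (finite_range _).isClosed.isOpen_compl
  have hYW : Y ⊆ W := by
    rw [hW]
    rintro y hy ⟨k, hk⟩
    have hk' : (a k.1 : ℂ) + b k.2 * Complex.I = y := hk
    exact hv k.1 k.2 (by rw [hk']; exact hy)
  obtain ⟨A, hAo, hAf, hYA, hAW, hAb⟩ := Pool.Agent.H39.HO.full_nhd hYc hfull hWo hYW
  obtain ⟨F, hF⟩ : ∃ F, F = connectedComponentIn A (f x1) := ⟨_, rfl⟩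
  have hFo : IsOpen F := hF ▸ hAo.connectedComponentIn
  have hFp : IsPreconnected F := hF ▸ isPreconnected_connectedComponentIn
  have hFf : Full F := hF ▸ comp_full hAo hAf _
  have hFA : F ⊆ A := hF ▸ connectedComponentIn_subset _ _
  have hYF : Y ⊆ F := by
    rw [hF]
    refine IsPreconnected.subset_connectedComponentIn ?_ (hfY x1) hYA
    rw [hY]
    exact isPreconnected_range hf
  -- logarithms
  have hlog : ∀ v : ℂ, ∃ l : ℂ → ℂ, v ∉ F → ContinuousOn l F ∧ ∀ w ∈ F, Complex.exp (l w) = w - v := by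
    intro v
    by_cases hv : v ∈ F
    · exact ⟨fun _ => 0, fun h => absurd hv h⟩
    · obtain ⟨l, h1, h2⟩ := Pool.Agent.H81.RW.log_full hFo hFp hFf hv
      exact ⟨l, fun _ => ⟨h1.continuousOn, h2⟩⟩
  choose lg hlg using hlog
  have hvx : ∀ i j, ((a i : ℂ) + b j * Complex.I) ∉ F := by
    intro i j h
    have := hAW (hFA h)
    rw [hW] at this
    exact this ⟨(i, j), rfl⟩
  have hu0 : ∀ k : Fin m ⊕ Fin m, (uu k : ℂ) ≠ 0 := by
    rintro (i | i)
    · exact Complex.I_ne_zero
    · exact one_ne_zero
  have hG : GR F (oo a b) uu lg := by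
    refine ⟨hFo, hAb.subset hFA, hu0, ?_, fun v hv => hlg v hv⟩
    rintro (i | i) (j | j) w hkl hw h1 h2
    · rw [co_inl] at h1 h2
      exact hkl (congrArg Sum.inl (hai (by linarith)))
    · rw [co_inl] at h1
      rw [co_inr] at h2
      apply hvx i j
      have : ((a i : ℂ) + b j * Complex.I) = w := by
        apply Complex.ext
        · simp
          linarith
        · simp
          linarith
      rw [this]
      exact hw
    · rw [co_inr] at h1
      rw [co_inl] at h2
      apply hvx j i
      have : ((a j : ℂ) + b i * Complex.I) = w := by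
        apply Complex.ext
        · simp
          linarith
        · simp
          linarith
      rw [this]
      exact hw
    · rw [co_inr] at h1 h2
      exact hkl (congrArg Sum.inr (hbi (by linarith)))
  obtain ⟨c, hc⟩ : ∃ c : X → _, c = fun x => cd F (oo a b) uu lg (f x) := ⟨_, rfl⟩
  obtain ⟨E, hE⟩ : ∃ E, E = EE F (oo a b) uu lg := ⟨_, rfl⟩
  have hBr : Br E := hE ▸ cd_br hG
  -- nearby points have equal or adjacent codes
  have hloc2 : ∃ lam : ℝ, 0 < lam ∧ ∀ y ∈ Y, ∀ w, dist w y < lam → cd F (oo a b) uu lg w = cd F (oo a b) uu lg y ∨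
      E (cd F (oo a b) uu lg w) (cd F (oo a b) uu lg y) ∨ E (cd F (oo a b) uu lg y) (cd F (oo a b) uu lg w) := by
    have h1 : ∀ y : Y, ∃ ρ : ℝ, 0 < ρ ∧ ∀ w ∈ ball (y : ℂ) ρ, ∀ w' ∈ ball (y : ℂ) ρ,
        cd F (oo a b) uu lg w = cd F (oo a b) uu lg w' ∨ E (cd F (oo a b) uu lg w) (cd F (oo a b) uu lg w') ∨
          E (cd F (oo a b) uu lg w') (cd F (oo a b) uu lg w) := fun y => hE ▸ cd_loc hG (hYF y.2)
    choose ρ hρ hρb using h1
    obtain ⟨lam, hlam, hl⟩ := lebesgue_number_lemma_of_metric (s := Y) (c := fun y : Y => ball (y : ℂ) (ρ y)) hYc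
      (fun y => isOpen_ball) (fun y hy => mem_iUnion.2 ⟨⟨y, hy⟩, mem_ball_self (hρ _)⟩)
    refine ⟨lam, hlam, fun y hy w hw => ?_⟩
    obtain ⟨i, hi⟩ := hl y hy
    exact hρb i w (hi hw) y (hi (mem_ball_self hlam))
  obtain ⟨lam, hlam, hlam2⟩ := hloc2
  -- the relation
  obtain ⟨Q, hQ⟩ : ∃ Q : X → X → Prop, Q = fun x x' => dist x x' < r / 4 ∧
      (c x = c x' ∨ E (c x) (c x') ∨ E (c x') (c x)) := ⟨_, rfl⟩
  have hdist : ∀ x x', Q x x' → dist x x' < r / 8 := by
    intro x x' hq
    rw [hQ] at hq
    refine hνi x x' (by linarith [hq.1]) (hmesh _ _ ?_ ?_ ?_)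
    · have := hRY (hfY x)
      rwa [mem_closedBall_zero_iff] at this
    · have := hRY (hfY x')
      rwa [mem_closedBall_zero_iff] at this
    · have hflip : ∀ y y' : X, E (c y) (c y') → ∃ k : Fin m ⊕ Fin m, ∀ l ≠ k, (c y).1 l = (c y').1 l := by
        intro y y' h
        rw [hE] at h
        obtain ⟨s, -, w, -, -, h2⟩ := h
        refine ⟨s.1, fun l hl => ?_⟩
        rw [h2, flip_fst' s _ hl]
      have hfin : ∃ k : Fin m ⊕ Fin m, ∀ l ≠ k, (c x).1 l = (c x').1 l := by
        rcases hq.2 with h | h | h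
        · exact ⟨Sum.inl ⟨0, hm⟩, fun l _ => by rw [h]⟩
        · exact hflip _ _ h
        · obtain ⟨k, hk⟩ := hflip _ _ h
          exact ⟨k, fun l hl => (hk l hl).symm⟩
      obtain ⟨k, hk⟩ := hfin
      refine ⟨k, fun l hl => ?_⟩
      have := hk l hl
      rw [hc] at this
      exact this
  -- the chain
  have huc := CompactSpace.uniformContinuous_of_continuous hf
  rw [Metric.uniformContinuous_iff] at huc
  obtain ⟨η0, hη0, hη⟩ := huc lam hlam
  obtain ⟨n, s, hs0, hsn, hs⟩ := eta_chain (η := min η0 (r / 4)) (lt_min hη0 (by positivity)) x1 x2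
  have hchain := chain_close hBr (cd := c) (Q := Q)
    (fun x => by rw [hQ]; exact ⟨by rw [dist_self]; positivity, Or.inl rfl⟩)
    (fun x y h => by rw [hQ] at h; exact h.2)
    (fun x y z hxy hyz he => by
      have d1 := hdist _ _ hxy
      have d2 := hdist _ _ hyz
      rw [hQ] at hyz ⊢
      refine ⟨by linarith [dist_triangle x y z], ?_⟩
      rw [he]
      exact hyz.2)
    (fun x y z hxy hyz he => by
      have d1 := hdist _ _ hxy
      have d2 := hdist _ _ hyz
      rw [hQ] at hxy ⊢
      refine ⟨by linarith [dist_triangle x y z], ?_⟩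
      rw [← he]
      exact hxy.2)
    (fun x y z hxy hyz he => by
      have d1 := hdist _ _ hxy
      have d2 := hdist _ _ hyz
      rw [hQ]
      exact ⟨by linarith [dist_triangle x y z], Or.inl he⟩)
    n s (fun i hi => by
      have h1 := hs i hi
      rw [hQ]
      refine ⟨h1.trans_le (min_le_right _ _), ?_⟩
      rw [hc]
      exact hlam2 _ (hfY _) _ (hη (h1.trans_le (min_le_left _ _))))
    (by rw [hs0, hsn, hc]; show cd F (oo a b) uu lg (f x1) = cd F (oo a b) uu lg (f x2); rw [hx12])
  rw [hs0, hsn] at hchain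
  exact hri _ _ (by linarith [hdist _ _ hchain]) hx12

end Pool.Agent.H64.TL
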