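import Mathlib

/-!
# Closed walks in a graph all of whose edges are bridges backtrack

`Br E`: for every edge `(v, v')` there is a set `S` which separates `v` from `v'` and is respected by all other edges.
`back`: a closed walk of positive length has `w i = w (i + 2)` for some `i`. `chain_close`: the consequence for chains of
points with codes.
-/

set_option autoImplicit false

namespace Pool.Agent.H64.TL

/-- every edge is a bridge -/
def Br {T : Type*} (E : T → T → Prop) : Prop := ∀ v v', E v v' → ∃ S : T → Prop, S v ∧ ¬ S v' ∧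
  ∀ x x', E x x' → (x = v ∧ x' = v') ∨ (S x ↔ S x')

/-- closed walks backtrack -/
theorem back {T : Type*} {E : T → T → Prop} (hE : Br E) : ∀ (n : ℕ) (w : ℕ → T), 0 < n → w 0 = w n →
    (∀ i < n, E (w i) (w (i + 1)) ∨ E (w (i + 1)) (w i)) → ∃ i, i + 2 ≤ n ∧ w i = w (i + 2) := by
  intro n
  induction n using Nat.strong_induction_on with
  | _ n ih =>
    intro w hn h0 hw
    -- the separating set of the first edge
    have h1 : ∃ S : T → Prop, (S (w 1) ↔ ¬ S (w 0)) ∧ ∀ x x', (E x x' ∨ E x' x) →
        (x = w 1 ∧ x' = w 0) ∨ (x = w 0 ∧ x' = w 1) ∨ (S x ↔ S x') := by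
      rcases hw 0 hn with h | h
      · obtain ⟨S, h2, h3, h4⟩ := hE _ _ h
        refine ⟨S, by simp only [h2, not_true, iff_false]; simpa using h3, ?_⟩
        rintro x x' (h5 | h5)
        · rcases h4 _ _ h5 with ⟨rfl, rfl⟩ | h6
          · exact Or.inr (Or.inl ⟨rfl, rfl⟩)
          · exact Or.inr (Or.inr h6)
        · rcases h4 _ _ h5 with ⟨rfl, rfl⟩ | h6
          · exact Or.inl ⟨rfl, rfl⟩
          · exact Or.inr (Or.inr h6.symm)
      · obtain ⟨S, h2, h3, h4⟩ := hE _ _ h
        have h2' : S (w 1) := by simpa using h2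
        refine ⟨S, by simp only [h2', h3, not_false_eq_true], ?_⟩
        rintro x x' (h5 | h5)
        · rcases h4 _ _ h5 with ⟨h6, rfl⟩ | h6
          · exact Or.inl ⟨by simpa using h6, rfl⟩
          · exact Or.inr (Or.inr h6)
        · rcases h4 _ _ h5 with ⟨h6, rfl⟩ | h6
          · exact Or.inr (Or.inl ⟨rfl, by simpa using h6⟩)
          · exact Or.inr (Or.inr h6.symm)
    obtain ⟨S, hS, hSE⟩ := h1
    classical
    -- the first return
    have hex : ∃ j, 1 ≤ j ∧ j ≤ n ∧ ¬ (S (w j) ↔ S (w 1)) := by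
      refine ⟨n, hn, le_rfl, ?_⟩
      rw [← h0, hS]
      tauto
    obtain ⟨j, ⟨hj1, hjn, hj⟩, hmin⟩ : ∃ j, (1 ≤ j ∧ j ≤ n ∧ ¬ (S (w j) ↔ S (w 1))) ∧
        ∀ k < j, ¬ (1 ≤ k ∧ k ≤ n ∧ ¬ (S (w k) ↔ S (w 1))) :=
      ⟨Nat.find hex, Nat.find_spec hex, fun k hk => Nat.find_min hex hk⟩
    have hj2 : 2 ≤ j := by
      rcases Nat.lt_or_ge j 2 with h | h
      · obtain rfl : j = 1 := by omega
        exact absurd Iff.rfl hj
      · exact h
    have hprev : S (w (j - 1)) ↔ S (w 1) := by
      by_contra hcon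
      exact hmin (j - 1) (by omega) ⟨by omega, by omega, hcon⟩
    have hstep := hw (j - 1) (by omega)
    rw [show j - 1 + 1 = j by omega] at hstep
    have hret : w (j - 1) = w 1 ∧ w j = w 0 := by
      rcases hSE _ _ hstep with h | h | h
      · exact h
      · exfalso
        rw [h.1, hS] at hprev
        tauto
      · exfalso
        exact hj (h.symm.trans hprev)
    rcases Nat.lt_or_ge 2 j with h3 | h3
    · obtain ⟨i, hi, hi2⟩ := ih (j - 2) (by omega) (fun k => w (k + 1)) (by omega) (by
        show w (0 + 1) = w (j - 2 + 1)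
        rw [show j - 2 + 1 = j - 1 by omega, hret.1]) (fun i hi => hw (i + 1) (by omega))
      exact ⟨i + 1, by omega, hi2⟩
    · obtain rfl : j = 2 := by omega
      exact ⟨0, by omega, hret.2.symm⟩

/-- chains of points with codes: `Q` close and with equal or adjacent codes -/
theorem chain_close {X T : Type*} {E : T → T → Prop} (hE : Br E) {cd : X → T} {Q : X → X → Prop}
    (hr : ∀ x, Q x x) (hc : ∀ x y, Q x y → cd x = cd y ∨ E (cd x) (cd y) ∨ E (cd y) (cd x))
    (h1 : ∀ x y z, Q x y → Q y z → cd x = cd y → Q x z) (h2 : ∀ x y z, Q x y → Q y z → cd y = cd z → Q x z)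
    (h3 : ∀ x y z, Q x y → Q y z → cd x = cd z → Q x z) :
    ∀ (n : ℕ) (x : ℕ → X), (∀ i < n, Q (x i) (x (i + 1))) → cd (x 0) = cd (x n) → Q (x 0) (x n) := by
  intro n
  induction n with
  | zero => exact fun x _ _ => hr _
  | succ n ih =>
    intro x hx hcl
    rcases Nat.eq_zero_or_pos n with rfl | hn
    · exact hx 0 (by omega)
    -- a shortcut
    have hsc : ∃ i, i + 2 ≤ n + 1 ∧ Q (x i) (x (i + 2)) := by
      by_cases heq : ∃ i ≤ n, cd (x i) = cd (x (i + 1))
      · obtain ⟨i, hi, he⟩ := heq
        rcases Nat.lt_or_ge i n with h | h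
        · exact ⟨i, by omega, h1 _ _ _ (hx i (by omega)) (hx (i + 1) (by omega)) he⟩
        · obtain rfl : i = n := by omega
          refine ⟨i - 1, by omega, ?_⟩
          have e1 : i - 1 + 1 = i := by omega
          have e2 : i - 1 + 2 = i + 1 := by omega
          have q1 := hx (i - 1) (by omega)
          rw [e1] at q1
          rw [e2]
          exact h2 _ _ _ q1 (hx i (by omega)) he
      · push Not at heq
        obtain ⟨i, hi, he⟩ := back hE (n + 1) (fun i => cd (x i)) (by omega) hcl (fun i hi =>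
          (hc _ _ (hx i hi)).resolve_left (heq i (by omega)))
        exact ⟨i, hi, h3 _ _ _ (hx i (by omega)) (hx (i + 1) (by omega)) he⟩
    obtain ⟨i, hi, hq⟩ := hsc
    have key := ih (fun j => if j ≤ i then x j else x (j + 1)) (fun j hj => by
      show Q (if j ≤ i then x j else x (j + 1)) (if j + 1 ≤ i then x (j + 1) else x (j + 1 + 1))
      rcases Nat.lt_trichotomy j i with h | h | h
      · rw [if_pos h.le, if_pos (by omega)]
        exact hx j (by omega)
      · subst h
        rw [if_pos le_rfl, if_neg (by omega)]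
        exact hq
      · rw [if_neg (by omega), if_neg (by omega)]
        exact hx (j + 1) (by omega)) (by
      show cd (if 0 ≤ i then x 0 else x (0 + 1)) = cd (if n ≤ i then x n else x (n + 1))
      rw [if_pos (Nat.zero_le _), if_neg (by omega)]
      exact hcl)
    have e1 : (if 0 ≤ i then x 0 else x (0 + 1)) = x 0 := if_pos (Nat.zero_le _)
    have e2 : (if n ≤ i then x n else x (n + 1)) = x (n + 1) := if_neg (by omega)
    have key' : Q (if 0 ≤ i then x 0 else x (0 + 1)) (if n ≤ i then x n else x (n + 1)) := key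
    rwa [e1, e2] at key'

end Pool.Agent.H64.TL
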